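import Pool.Agent.H91.PAlphaBeta

set_option autoImplicit false

open H91.PAlphaBeta in
theorem Pool.Agent.Results.MP_54ed65_an.RePNonneg.result (α β : ℝ) (h0 : 0 < α) (h1 : α < 2 / 3)
    (hβ : 0 < β) (h2 : 0 ≤ α - 2 * (1 - α) * β) (z : ℂ) (hz : ‖z‖ < 1) : 0 ≤ (P α β z).re :=
  main α β h0 h1 hβ h2 z hz
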